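import Pool.Agent.Results.MP_0fb7f5_co.BooleanIntervals

set_option autoImplicit false

namespace Pool.Agent.W170.Del

open Equiv Finset
open Pool.Agent.Results.MP_0fb7f5_co.BooleanIntervals

variable {n : ℕ}

/-- a block of cells on which the rank of `v` strictly exceeds the rank of `x` -/
def Blk (v x : Perm (Fin n)) (a0 a1 b0 b1 : ℕ) : Prop :=
  ∀ a b : ℕ, a0 < a → a ≤ a1 → b0 < b → b ≤ b1 → rk x a b < rk v a b

lemma Blk.sub {v x : Perm (Fin n)} {a0 a1 b0 b1 a0' a1' b0' b1' : ℕ} (h : Blk v x a0 a1 b0 b1)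
    (h1 : a0 ≤ a0') (h2 : a1' ≤ a1) (h3 : b0 ≤ b0') (h4 : b1' ≤ b1) : Blk v x a0' a1' b0' b1' :=
  fun a b k1 k2 k3 k4 => h a b (by omega) (by omega) (by omega) (by omega)

lemma le_swap_iff {v x : Perm (Fin n)} (h : le x v) {i j : Fin n} (hij : i < j) (hx : x i < x j) :
    le (x * swap i j) v ↔ Blk v x i j (x i) (x j) := by
  constructor
  · intro H a b h1 h2 h3 h4
    have := H a b
    rw [rk_swap x hij hx, if_pos ⟨h1, h2, h3, h4⟩] at this
    omega
  · intro H a b
    rw [rk_swap x hij hx]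
    split_ifs with hc
    · have := H a b hc.1 hc.2.1 hc.2.2.1 hc.2.2.2
      omega
    · exact h a b

/-- equality in Deodhar's inequality -/
def Sm (v x : Perm (Fin n)) : Prop := le x v ∧ FF x v = 2 * inv v

lemma Sm.mono {v x y : Perm (Fin n)} (h : Sm v x) (hxy : le x y) (hyv : le y v) : Sm v y := by
  refine ⟨hyv, ?_⟩
  have h1 := up_mono hxy hyv
  have h2 := deodhar hyv
  have h3 := FF_eq h.1
  have h4 := FF_eq hyv
  have h5 := h.2
  omega

lemma Sm.swap {v x : Perm (Fin n)} (h : Sm v x) {i j : Fin n} (hij : i < j) (hx : x i < x j)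
    (hb : Blk v x i j (x i) (x j)) : Sm v (x * Equiv.swap i j) :=
  h.mono (le_swap x hij hx) ((le_swap_iff h.1 hij hx).2 hb)

lemma pair_key (x v : Perm (Fin n)) {i j : Fin n} (hij : i < j) (hx : x i < x j)
    (hin : inner x i j = 0) (hy : le (x * Equiv.swap i j) v) (p : Fin n × Fin n) :
    (if p.1 = p.2 then 0 else gg v (x * Equiv.swap i j) p.1 p.2) +
        (if Equiv.swap i j p.1 = Equiv.swap i j p.2 then 0 else
          gg v (x * Equiv.swap i j) (Equiv.swap i j p.1) (Equiv.swap i j p.2)) ≤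
      (if p.1 = p.2 then 0 else gg v x p.1 p.2) +
        (if Equiv.swap i j p.1 = Equiv.swap i j p.2 then 0 else
          gg v x (Equiv.swap i j p.1) (Equiv.swap i j p.2)) := by
  have hij' : i ≠ j := ne_of_lt hij
  have hxv : le x v := le_trans' (le_swap x hij hx) hy
  have hyy : x * Equiv.swap i j * Equiv.swap i j = x := by rw [mul_assoc, swap_mul_self, mul_one]
  obtain ⟨p, q⟩ := p
  simp only [EmbeddingLike.apply_eq_iff_eq]
  by_cases hpq : p = q
  · simp [hpq]
  simp only [hpq, if_false]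
  have gxy : gg v x i j = 1 := by unfold gg; simp [hy]
  have gyx : gg v (x * Equiv.swap i j) i j = 1 := by unfold gg; rw [hyy]; simp [hxv]
  by_cases hpi : p = i
  · subst hpi
    by_cases hqj : q = j
    · subst hqj
      simp only [swap_apply_left, swap_apply_right]
      rw [gg_comm v _ q p, gg_comm v x q p]
      omega
    · have hq : Equiv.swap p j q = q := swap_apply_of_ne_of_ne (Ne.symm hpq) hqj
      simp only [swap_apply_left, hq]
      exact gg_third x v hij hx hin (Ne.symm hpq) hqj hy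
  · by_cases hpj : p = j
    · subst hpj
      by_cases hqi : q = i
      · subst hqi
        simp only [swap_apply_left, swap_apply_right]
        rw [gg_comm v _ p q, gg_comm v x p q]
        omega
      · have hq : Equiv.swap i p q = q := swap_apply_of_ne_of_ne hqi (Ne.symm hpq)
        simp only [swap_apply_right, hq]
        have := gg_third x v hij hx hin hqi (Ne.symm hpq) hy
        omega
    · have hp : Equiv.swap i j p = p := swap_apply_of_ne_of_ne hpi hpj
      by_cases hqi : q = i
      · subst hqi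
        simp only [swap_apply_left, hp]
        have := gg_third x v hij hx hin hpi hpj hy
        rw [gg_comm v _ p q, gg_comm v _ p j, gg_comm v x p q, gg_comm v x p j]
        exact this
      · by_cases hqj : q = j
        · subst hqj
          simp only [swap_apply_right, hp]
          have := gg_third x v hij hx hin hpi hpj hy
          rw [gg_comm v _ p q, gg_comm v _ p i, gg_comm v x p q, gg_comm v x p i]
          omega
        · have hq : Equiv.swap i j q = q := swap_apply_of_ne_of_ne hqi hqj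
          rw [hp, hq]
          have := gg_disjoint x v hij hx hpi hpj hqi hqj
          omega

lemma pair_eq {x v : Perm (Fin n)} (hs : Sm v x) {i j : Fin n} (hij : i < j) (hx : x i < x j)
    (hin : inner x i j = 0) (hy : le (x * Equiv.swap i j) v) (p : Fin n × Fin n) :
    (if p.1 = p.2 then 0 else gg v (x * Equiv.swap i j) p.1 p.2) +
        (if Equiv.swap i j p.1 = Equiv.swap i j p.2 then 0 else
          gg v (x * Equiv.swap i j) (Equiv.swap i j p.1) (Equiv.swap i j p.2)) =
      (if p.1 = p.2 then 0 else gg v x p.1 p.2) +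
        (if Equiv.swap i j p.1 = Equiv.swap i j p.2 then 0 else
          gg v x (Equiv.swap i j p.1) (Equiv.swap i j p.2)) := by
  have hinv : ∀ z : Perm (Fin n), ∑ p : Fin n × Fin n,
      (if Equiv.swap i j p.1 = Equiv.swap i j p.2 then 0 else
        gg v z (Equiv.swap i j p.1) (Equiv.swap i j p.2)) = FF z v := by
    intro z
    unfold FF
    exact Equiv.sum_comp (Equiv.prodCongr (Equiv.swap i j) (Equiv.swap i j))
      (fun p : Fin n × Fin n => if p.1 = p.2 then 0 else gg v z p.1 p.2)
  have hs' : Sm v (x * Equiv.swap i j) := hs.mono (le_swap x hij hx) hy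
  have key := fun p : Fin n × Fin n => fun (_ : p ∈ (univ : Finset (Fin n × Fin n))) =>
    pair_key x v hij hx hin hy p
  have hsum := (Finset.sum_eq_sum_iff_of_le key).1 (by
    rw [Finset.sum_add_distrib, Finset.sum_add_distrib, hinv, hinv]
    have h1 := hs.2
    have h2 := hs'.2
    unfold FF at h1 h2 ⊢
    omega)
  exact hsum p (mem_univ p)

lemma gg_third_eq {x v : Perm (Fin n)} (hs : Sm v x) {i j m : Fin n} (hij : i < j) (hx : x i < x j)
    (hin : inner x i j = 0) (hmi : m ≠ i) (hmj : m ≠ j) (hy : le (x * Equiv.swap i j) v) :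
    gg v (x * Equiv.swap i j) i m + gg v (x * Equiv.swap i j) j m = gg v x i m + gg v x j m := by
  have := pair_eq hs hij hx hin hy (i, m)
  simp only [swap_apply_left, swap_apply_of_ne_of_ne hmi hmj, Ne.symm hmi, Ne.symm hmj,
    if_false] at this
  exact this

lemma gg_disjoint_eq {x v : Perm (Fin n)} (hs : Sm v x) {i j p q : Fin n} (hij : i < j)
    (hx : x i < x j) (hin : inner x i j = 0) (hy : le (x * Equiv.swap i j) v) (hpq : p ≠ q)
    (hpi : p ≠ i) (hpj : p ≠ j) (hqi : q ≠ i) (hqj : q ≠ j) :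
    gg v (x * Equiv.swap i j) p q = gg v x p q := by
  have := pair_eq hs hij hx hin hy (p, q)
  simp only [swap_apply_of_ne_of_ne hpi hpj, swap_apply_of_ne_of_ne hqi hqj, hpq, if_false] at this
  omega

lemma gg_one {v z : Perm (Fin n)} {p q : Fin n} : gg v z p q = 1 ↔ le (z * Equiv.swap p q) v := by
  unfold gg
  split_ifs with h <;> simp [h]

lemma gg_le_one (v z : Perm (Fin n)) (p q : Fin n) : gg v z p q ≤ 1 := by
  unfold gg
  split_ifs <;> simp

lemma rk_le_swap (x : Perm (Fin n)) {i j : Fin n} (hij : i < j) (hx : x i < x j) (a b : ℕ) :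
    rk x a b ≤ rk (x * Equiv.swap i j) a b := le_swap x hij hx a b

lemma Blk.of_swap {v x : Perm (Fin n)} {i j : Fin n} (hij : i < j) (hx : x i < x j)
    {a0 a1 b0 b1 : ℕ} (h : Blk v (x * Equiv.swap i j) a0 a1 b0 b1) : Blk v x a0 a1 b0 b1 :=
  fun a b k1 k2 k3 k4 => lt_of_le_of_lt (rk_le_swap x hij hx a b) (h a b k1 k2 k3 k4)

/-- condition for covers, third point to the right and above -/
lemma S2 {x v : Perm (Fin n)} (hs : Sm v x) {i j c : Fin n} (hij : i < j) (hx : x i < x j)
    (hin : inner x i j = 0) (hb : Blk v x i j (x i) (x j)) (hjc : j < c) (hxc : x j < x c)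
    (hc : Blk v x j c (x j) (x c)) :
    Blk v x i j (x j) (x c) ∨ Blk v x j c (x i) (x j) := by
  have hy := (le_swap_iff hs.1 hij hx).2 hb
  have hci : c ≠ i := ne_of_gt (hij.trans hjc)
  have hcj : c ≠ j := ne_of_gt hjc
  have e := gg_third_eq hs hij hx hin hci hcj hy
  have e1 : gg v x j c = 1 := gg_one.2 ((le_swap_iff hs.1 hjc hxc).2 hc)
  have l1 := gg_le_one v (x * Equiv.swap i j) i c
  have l2 := gg_le_one v (x * Equiv.swap i j) j c
  have hor : gg v (x * Equiv.swap i j) i c = 1 ∨ gg v (x * Equiv.swap i j) j c = 1 := by omega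
  have xi : (x * Equiv.swap i j) i = x j := by simp
  have xj : (x * Equiv.swap i j) j = x i := by simp
  have xc : (x * Equiv.swap i j) c = x c := by simp [swap_apply_of_ne_of_ne hci hcj]
  rcases hor with h | h
  · left
    have h' := (le_swap_iff hy (hij.trans hjc) (by rw [xi, xc]; exact hxc)).1 (gg_one.1 h)
    rw [xi, xc] at h'
    exact (Blk.of_swap hij hx h').sub le_rfl (le_of_lt hjc) le_rfl le_rfl
  · right
    have h' := (le_swap_iff hy hjc (by rw [xj, xc]; exact hx.trans hxc)).1 (gg_one.1 h)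
    rw [xj, xc] at h'
    exact (Blk.of_swap hij hx h').sub le_rfl le_rfl le_rfl (le_of_lt hxc)

/-- condition for covers, third point to the left and below -/
lemma S2' {x v : Perm (Fin n)} (hs : Sm v x) {i j c : Fin n} (hij : i < j) (hx : x i < x j)
    (hin : inner x i j = 0) (hb : Blk v x i j (x i) (x j)) (hci' : c < i) (hxc : x c < x i)
    (hc : Blk v x c i (x c) (x i)) :
    Blk v x c i (x i) (x j) ∨ Blk v x i j (x c) (x i) := by
  have hy := (le_swap_iff hs.1 hij hx).2 hb
  have hci : c ≠ i := ne_of_lt hci'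
  have hcj : c ≠ j := ne_of_lt (hci'.trans hij)
  have e := gg_third_eq hs hij hx hin hci hcj hy
  have e1 : gg v x i c = 1 := by
    rw [gg_comm]; exact gg_one.2 ((le_swap_iff hs.1 hci' hxc).2 hc)
  have l1 := gg_le_one v (x * Equiv.swap i j) i c
  have l2 := gg_le_one v (x * Equiv.swap i j) j c
  have hor : gg v (x * Equiv.swap i j) i c = 1 ∨ gg v (x * Equiv.swap i j) j c = 1 := by omega
  have xi : (x * Equiv.swap i j) i = x j := by simp
  have xj : (x * Equiv.swap i j) j = x i := by simp
  have xc : (x * Equiv.swap i j) c = x c := by simp [swap_apply_of_ne_of_ne hci hcj]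
  rcases hor with h | h
  · left
    rw [gg_comm] at h
    have h' := (le_swap_iff hy hci' (by rw [xi, xc]; exact hxc.trans hx)).1 (gg_one.1 h)
    rw [xi, xc] at h'
    exact (Blk.of_swap hij hx h').sub le_rfl le_rfl (le_of_lt hxc) le_rfl
  · right
    rw [gg_comm] at h
    have h' := (le_swap_iff hy (hci'.trans hij) (by rw [xj, xc]; exact hxc)).1 (gg_one.1 h)
    rw [xj, xc] at h'
    exact (Blk.of_swap hij hx h').sub (le_of_lt hci') le_rfl le_rfl le_rfl

/-- two disjoint pairs, one of them a cover -/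
lemma S3 {x v : Perm (Fin n)} (hs : Sm v x) {i j p q : Fin n} (hij : i < j) (hx : x i < x j)
    (hin : inner x i j = 0) (hb : Blk v x i j (x i) (x j)) (hpq : p < q) (hxp : x p < x q)
    (hc : Blk v x p q (x p) (x q)) (hpi : p ≠ i) (hpj : p ≠ j) (hqi : q ≠ i) (hqj : q ≠ j) :
    le (x * Equiv.swap i j * Equiv.swap p q) v := by
  have hy := (le_swap_iff hs.1 hij hx).2 hb
  have e := gg_disjoint_eq hs hij hx hin hy (ne_of_lt hpq) hpi hpj hqi hqj
  rw [gg_one.2 ((le_swap_iff hs.1 hpq hxp).2 hc)] at e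
  exact gg_one.1 e

lemma S3' {x v : Perm (Fin n)} (hs : Sm v x) {i j p q : Fin n} (hij : i < j) (hx : x i < x j)
    (hin : inner x i j = 0) (hb : Blk v x i j (x i) (x j)) (hpq : p < q) (hxp : x p < x q)
    (hc : Blk v x p q (x p) (x q)) (hpi : p ≠ i) (hpj : p ≠ j) (hqi : q ≠ i) (hqj : q ≠ j)
    {a b : ℕ} (h1 : (i : ℕ) < a) (h2 : a ≤ (j : ℕ)) (h3 : (x i : ℕ) < b) (h4 : b ≤ (x j : ℕ))
    (k1 : (p : ℕ) < a) (k2 : a ≤ (q : ℕ)) (k3 : (x p : ℕ) < b) (k4 : b ≤ (x q : ℕ)) :
    rk x a b + 2 ≤ rk v a b := by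
  have h := S3 hs hij hx hin hb hpq hxp hc hpi hpj hqi hqj a b
  have xp : (x * Equiv.swap i j) p = x p := by simp [swap_apply_of_ne_of_ne hpi hpj]
  have xq : (x * Equiv.swap i j) q = x q := by simp [swap_apply_of_ne_of_ne hqi hqj]
  rw [rk_swap _ hpq (by rw [xp, xq]; exact hxp), rk_swap x hij hx, if_pos ⟨h1, h2, h3, h4⟩,
    xp, xq, if_pos ⟨k1, k2, k3, k4⟩] at h
  omega

end Pool.Agent.W170.Del
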