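import Pool.Agent.W170.Del.Basic

set_option autoImplicit false

namespace Pool.Agent.W170.Del

open Equiv Finset
open Pool.Agent.Results.MP_0fb7f5_co.BooleanIntervals

variable {n : ℕ}

lemma exists_first {x : Perm (Fin n)} {i j : Fin n} (h : inner x i j ≠ 0) :
    ∃ m : Fin n, i < m ∧ m < j ∧ x i < x m ∧ x m < x j ∧ inner x i m = 0 := by
  classical
  have hS : (univ.filter fun k : Fin n => i < k ∧ k < j ∧ x i < x k ∧ x k < x j).Nonempty := by
    rw [← Finset.card_pos]
    exact Nat.pos_of_ne_zero h
  obtain ⟨m, hm, hmin⟩ := Finset.exists_min_image _ (fun k : Fin n => k) hS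
  simp only [mem_filter, mem_univ, true_and] at hm hmin
  refine ⟨m, hm.1, hm.2.1, hm.2.2.1, hm.2.2.2, ?_⟩
  unfold Pool.Agent.Results.MP_0fb7f5_co.BooleanIntervals.inner
  rw [Finset.card_eq_zero, Finset.filter_eq_empty_iff]
  rintro k - ⟨k1, k2, k3, k4⟩
  exact absurd (hmin k ⟨k1, k2.trans hm.2.1, k3, k4.trans hm.2.2.2⟩) (not_le.2 k2)

/-- the rank-two condition for all pairs -/
lemma GS2 {v : Perm (Fin n)} : ∀ (N : ℕ) (x : Perm (Fin n)) (i j k : Fin n), inner x i j = N →
    Sm v x → i < j → j < k → x i < x j → x j < x k → Blk v x i j (x i) (x j) →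
    Blk v x j k (x j) (x k) → Blk v x i j (x j) (x k) ∨ Blk v x j k (x i) (x j) := by
  classical
  intro N
  induction N using Nat.strong_induction_on with
  | _ N ih =>
  intro x i j k hN hs hij hjk hxij hxjk hSW hNE
  by_cases h0 : inner x i j = 0
  · exact S2 hs hij hxij h0 hSW hjk hxjk hNE
  obtain ⟨m, him, hmj, hxim, hxmj, hinm⟩ := exists_first h0
  have nij : (i : ℕ) < j := hij
  have nim : (i : ℕ) < m := him
  have nmj : (m : ℕ) < j := hmj
  have njk : (j : ℕ) < k := hjk
  have vim : (x i : ℕ) < x m := hxim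
  have vmj : (x m : ℕ) < x j := hxmj
  have vjk : (x j : ℕ) < x k := hxjk
  have hbm : Blk v x i m (x i) (x m) := hSW.sub le_rfl (le_of_lt nmj) le_rfl (le_of_lt vmj)
  have hs' : Sm v (x * Equiv.swap i m) := hs.swap him hxim hbm
  have xi : (x * Equiv.swap i m) i = x m := by simp
  have xm : (x * Equiv.swap i m) m = x i := by simp
  have xj : (x * Equiv.swap i m) j = x j := by
    simp [swap_apply_of_ne_of_ne (ne_of_gt hij) (ne_of_gt hmj)]
  have xk : (x * Equiv.swap i m) k = x k := by
    simp [swap_apply_of_ne_of_ne (ne_of_gt (hij.trans hjk)) (ne_of_gt (hmj.trans hjk))]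
  have hinn1 : inner (x * Equiv.swap i m) m j < inner x i j := by
    unfold Pool.Agent.Results.MP_0fb7f5_co.BooleanIntervals.inner
    apply Finset.card_lt_card
    rw [Finset.ssubset_iff_of_subset]
    · refine ⟨m, ?_, ?_⟩
      · simp only [mem_filter, mem_univ, true_and]; exact ⟨him, hmj, hxim, hxmj⟩
      · simp
    · intro l hl
      simp only [mem_filter, mem_univ, true_and, xm, xj] at hl ⊢
      obtain ⟨l1, l2, l3, l4⟩ := hl
      have hl' : (x * Equiv.swap i m) l = x l := by
        simp [swap_apply_of_ne_of_ne (ne_of_gt (him.trans l1)) (ne_of_gt l1)]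
      rw [hl'] at l3 l4
      exact ⟨him.trans l1, l2, l3, l4⟩
  have hinn2 : inner (x * Equiv.swap i m) i j < inner x i j := by
    unfold Pool.Agent.Results.MP_0fb7f5_co.BooleanIntervals.inner
    apply Finset.card_lt_card
    rw [Finset.ssubset_iff_of_subset]
    · refine ⟨m, ?_, ?_⟩
      · simp only [mem_filter, mem_univ, true_and]; exact ⟨him, hmj, hxim, hxmj⟩
      · simp only [mem_filter, mem_univ, true_and, xm, xi]
        rintro ⟨-, -, h3, -⟩
        exact absurd h3 (not_lt.2 (le_of_lt hxim))
    · intro l hl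
      simp only [mem_filter, mem_univ, true_and, xi, xj] at hl ⊢
      obtain ⟨l1, l2, l3, l4⟩ := hl
      by_cases hlm : l = m
      · subst hlm
        rw [xm] at l3
        exact absurd l3 (not_lt.2 (le_of_lt hxim))
      have hl' : (x * Equiv.swap i m) l = x l := by
        simp [swap_apply_of_ne_of_ne (ne_of_gt l1) hlm]
      rw [hl'] at l3 l4
      exact ⟨l1, l2, hxim.trans l3, l4⟩
  have h1 := ih _ (by rw [← hN]; exact hinn1) (x * Equiv.swap i m) m j k rfl hs' hmj hjk
    (by rw [xm, xj]; exact hxij) (by rw [xj, xk]; exact hxjk)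
    (by
      intro a b a1 a2 b1 b2
      rw [rk_swap x him hxim, if_neg (by omega), add_zero]
      rw [xm] at b1
      rw [xj] at b2
      exact hSW a b (by omega) a2 b1 b2)
    (by
      intro a b a1 a2 b1 b2
      rw [rk_swap x him hxim, if_neg (by omega), add_zero]
      rw [xj] at b1
      rw [xk] at b2
      exact hNE a b a1 a2 b1 b2)
  have h2 := ih _ (by rw [← hN]; exact hinn2) (x * Equiv.swap i m) i j k rfl hs' hij hjk
    (by rw [xi, xj]; exact hxmj) (by rw [xj, xk]; exact hxjk)
    (by
      intro a b a1 a2 b1 b2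
      rw [xi] at b1
      rw [xj] at b2
      rw [rk_swap x him hxim, if_neg (by omega), add_zero]
      exact hSW a b a1 a2 (by omega) b2)
    (by
      intro a b a1 a2 b1 b2
      rw [rk_swap x him hxim, if_neg (by omega), add_zero]
      rw [xj] at b1
      rw [xk] at b2
      exact hNE a b a1 a2 b1 b2)
  rw [xm, xj, xk] at h1
  rw [xi, xj, xk] at h2
  rcases h1 with h1 | h1
  · rcases h2 with h2 | h2
    · left; exact Blk.of_swap him hxim h2
    · have NW1 := Blk.of_swap him hxim h1
      have SE2 := Blk.of_swap him hxim h2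
      have hmk : Blk v x m k (x m) (x k) := by
        intro a b a1 a2 b1 b2
        by_cases ha : a ≤ (j : ℕ)
        · by_cases hb : b ≤ (x j : ℕ)
          · exact hSW a b (by omega) ha (by omega) hb
          · exact NW1 a b a1 ha (by omega) b2
        · by_cases hb : b ≤ (x j : ℕ)
          · exact SE2 a b (by omega) a2 b1 hb
          · exact hNE a b (by omega) a2 (by omega) b2
      rcases S2 hs him hxim hinm hbm (hmj.trans hjk) (hxmj.trans hxjk) hmk with h | h
      · left
        intro a b a1 a2 b1 b2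
        by_cases ha : a ≤ (m : ℕ)
        · exact h a b a1 ha (by omega) b2
        · exact NW1 a b (by omega) a2 b1 b2
      · right
        intro a b a1 a2 b1 b2
        by_cases hb : b ≤ (x m : ℕ)
        · exact h a b (by omega) a2 b1 hb
        · exact SE2 a b a1 a2 (by omega) b2
  · right; exact Blk.of_swap him hxim h1

lemma rk_four {z1 z2 z3 z4 : Perm (Fin n)} {a1 b1 a2 b2 a3 b3 a4 b4 : ℕ}
    (h : ∀ k : Fin n, ind z1 a1 b1 k + ind z2 a2 b2 k ≤ ind z3 a3 b3 k + ind z4 a4 b4 k) :
    rk z1 a1 b1 + rk z2 a2 b2 ≤ rk z3 a3 b3 + rk z4 a4 b4 := by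
  simp only [rk_eq_sum]
  rw [← Finset.sum_add_distrib, ← Finset.sum_add_distrib]
  exact Finset.sum_le_sum fun k _ => h k

lemma rk_zero (z : Perm (Fin n)) (b : ℕ) : rk z 0 b = 0 := by
  unfold rk; simp

/-- a cell with positive difference is the upper right corner of a block whose lower left corner
is a point of `x` -/
lemma E1 {v x : Perm (Fin n)} (h : le x v) {p q : ℕ} (hpq : rk x p q < rk v p q) :
    ∃ c : Fin n, (c : ℕ) < p ∧ (x c : ℕ) < q ∧ Blk v x c p (x c) q := by
  classical
  set l := Nat.findGreatest (fun l => rk v l q ≤ rk x l q) p with hl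
  have hlP : rk v l q ≤ rk x l q :=
    Nat.findGreatest_spec (P := fun l => rk v l q ≤ rk x l q) (Nat.zero_le p) (by
      rw [rk_zero, rk_zero])
  have hlp : l ≤ p := Nat.findGreatest_le p
  have hgt : ∀ a, l < a → a ≤ p → rk x a q < rk v a q := by
    intro a h1 h2
    have := Nat.findGreatest_is_greatest (P := fun l => rk v l q ≤ rk x l q) h1 h2
    exact not_le.1 this
  have hlp' : l < p := by
    rcases lt_or_eq_of_le hlp with h1 | h1
    · exact h1
    · rw [h1] at hlP; omega
  have hS : (univ.filter fun c : Fin n => l ≤ (c : ℕ) ∧ (c : ℕ) < p ∧ (x c : ℕ) < q).Nonempty := by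
    by_contra hcon
    rw [Finset.not_nonempty_iff_eq_empty, Finset.filter_eq_empty_iff] at hcon
    have h4 : rk v p q + rk x l q ≤ rk v l q + rk x p q := by
      apply rk_four
      intro k
      have hk := hcon (mem_univ k)
      unfold ind
      split_ifs <;> omega
    omega
  obtain ⟨c, hc, hmax⟩ := Finset.exists_max_image _ (fun k : Fin n => x k) hS
  simp only [mem_filter, mem_univ, true_and] at hc hmax
  refine ⟨c, hc.2.1, hc.2.2, ?_⟩
  intro a b a1 a2 b1 b2
  have e1 : rk x a b + rk x l q ≤ rk x a q + rk x l b := by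
    apply rk_four
    intro k
    have hk : l ≤ (k : ℕ) → (k : ℕ) < p → (x k : ℕ) < q → (x k : ℕ) ≤ x c :=
      fun k1 k2 k3 => hmax k ⟨k1, k2, k3⟩
    unfold ind
    split_ifs <;> omega
  have e2 : rk v a q + rk v l b ≤ rk v a b + rk v l q := by
    apply rk_four
    intro k
    unfold ind
    split_ifs <;> omega
  have e3 := hgt a (by omega) a2
  have e4 := h l b
  omega

end Pool.Agent.W170.Del
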