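import Pool.Agent.W170.Del.Mir

set_option autoImplicit false

namespace Pool.Agent.W170.Del

open Equiv Finset
open Pool.Agent.Results.MP_0fb7f5_co.BooleanIntervals

variable {n : ℕ}

/-- an ascent of `x` and of `v`, with `x * swap i i' ≤ v`, has an outgoing pair -/
lemma exists_out {v : Perm (Fin n)} : ∀ (N : ℕ) (x : Perm (Fin n)) (i i' : Fin n),
    inv v - inv x = N → Sm v x → (i' : ℕ) = i + 1 → x i < x i' →
    Blk v x i i' (x i) (x i') → v i < v i' → OutR v x i i' ∨ OutL v x i i' := by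
  classical
  intro N
  induction N using Nat.strong_induction_on with
  | _ N ih =>
  intro x i i' hN hs hi hxi hbi hv
  have hii' : i < i' := by rw [Fin.lt_def]; omega
  have hy := (le_swap_iff hs.1 hii' hxi).2 hbi
  have hyne : x * Equiv.swap i i' ≠ v := by
    intro h
    rw [← h] at hv
    simp only [Perm.mul_apply, swap_apply_left, swap_apply_right] at hv
    exact absurd hv (not_lt.2 (le_of_lt hxi))
  have h1 := inv_lt_of_le_ne hy hyne
  have h2 := inv_lt_swap x hii' hxi
  have h3 := FF_eq hs.1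
  have h4 := hs.2
  have h5 := card_up x v
  have hcard : 1 < (upPairs x v).card := by omega
  obtain ⟨p0, hp0, hp0'⟩ := Finset.exists_mem_ne hcard (i, i')
  have hne : ((upPairs x v).erase (i, i')).Nonempty := ⟨p0, Finset.mem_erase.2 ⟨hp0', hp0⟩⟩
  obtain ⟨⟨α, β⟩, hmem, hmin⟩ := Finset.exists_min_image _
    (fun p : Fin n × Fin n => (p.2 : ℕ) - (p.1 : ℕ)) hne
  rw [Finset.mem_erase] at hmem
  obtain ⟨hab, hmem⟩ := hmem
  simp only [upPairs, mem_filter, mem_univ, true_and] at hmem
  obtain ⟨hαβ, hx, hle⟩ := hmem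
  have hb := (le_swap_iff hs.1 hαβ hx).1 hle
  have hne' : ¬ (α = i ∧ β = i') := fun h => hab (Prod.ext h.1 h.2)
  have hin : inner x α β = 0 := by
    by_contra hcon
    obtain ⟨m, m1, m2, m3, m4, -⟩ := exists_first hcon
    have n1 : (α : ℕ) < m := m1
    have n2 : (m : ℕ) < β := m2
    have v1 : (x α : ℕ) < x m := m3
    have v2 : (x m : ℕ) < x β := m4
    have b1 : Blk v x α m (x α) (x m) := hb.sub le_rfl (le_of_lt n2) le_rfl (le_of_lt v2)
    have b2 : Blk v x m β (x m) (x β) := hb.sub (le_of_lt n1) le_rfl (le_of_lt v1) le_rfl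
    by_cases hc : (α, m) = (i, i')
    · have hc2 : (m, β) ≠ (i, i') := by
        intro h
        have e1 : m = i := congrArg Prod.fst h
        have e2 : m = i' := congrArg Prod.snd hc
        exact absurd (e1.symm.trans e2) (ne_of_lt hii')
      have := hmin (m, β) (by
        rw [Finset.mem_erase]
        refine ⟨hc2, ?_⟩
        simp only [upPairs, mem_filter, mem_univ, true_and]
        exact ⟨m2, m4, (le_swap_iff hs.1 m2 m4).2 b2⟩)
      simp only at this
      omega
    · have := hmin (α, m) (by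
        rw [Finset.mem_erase]
        refine ⟨hc, ?_⟩
        simp only [upPairs, mem_filter, mem_univ, true_and]
        exact ⟨m1, m3, (le_swap_iff hs.1 m1 m3).2 b1⟩)
      simp only at this
      omega
  have hasc := asc_swap hi hxi hαβ hx hin hne'
  by_cases hbi' : Blk v (x * Equiv.swap α β) i i' ((x * Equiv.swap α β) i)
      ((x * Equiv.swap α β) i')
  · have hlt := inv_lt_swap x hαβ hx
    have hle2 := inv_le_of_le hle
    rcases ih (inv v - inv (x * Equiv.swap α β)) (by omega) (x * Equiv.swap α β) i i' rfl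
      (hs.swap hαβ hx hb) hi hasc hbi' hv with h | h
    · left; exact L2R hs hi hxi hbi hαβ hx hin hb hne' hbi' h
    · right; exact L2L hs hi hxi hbi hαβ hx hin hb hne' hbi' h
  · rcases L1R hs hi hxi hbi hαβ hx hin hb hne' hbi' with h | h
    · left; exact h
    · rcases L1L hs hi hxi hbi hαβ hx hin hb hne' hbi' with h' | h'
      · right; exact h'
      · exfalso
        rw [h, h'] at hαβ
        exact absurd hαβ (not_lt.2 (le_of_lt hii'))

/-- below an outgoing pair the block extends down as far as the column of `i'` does -/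
lemma LB {v : Perm (Fin n)} : ∀ (N : ℕ) (x : Perm (Fin n)) (c i i' b : Fin n), (x c : ℕ) = N →
    Sm v x → (i' : ℕ) = i + 1 → c ≤ i → x c < x i' → Blk v x c i' (x c) (x i') → i' < b →
    x i' < x b → Blk v x i' b (x i') (x b) → ∀ q : ℕ, (x i' : ℕ) < q → q ≤ (x b : ℕ) →
    ¬ rk x i' q < rk v i' q → ∀ y0 : ℕ,
    (∀ r : ℕ, y0 < r → r ≤ (x i' : ℕ) → rk x i' r < rk v i' r) →
    Blk v x i' b y0 (x i') := by
  intro N
  induction N using Nat.strong_induction_on with
  | _ N ih =>
  intro x c i i' b hN hs hi hci hxc hci' hib hxb hNE q q1 q2 q3 y0 hcol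
  have nci : (c : ℕ) ≤ i := hci
  have hcc : c < i' := by rw [Fin.lt_def]; omega
  have vc : (x c : ℕ) < x i' := hxc
  rcases GS2 _ x c i' b rfl hs hcc hib hxc hxb hci' hNE with h | h
  · exact absurd (h i' q (by omega) le_rfl q1 q2) q3
  · by_cases hy : (x c : ℕ) ≤ y0
    · exact h.sub le_rfl le_rfl hy le_rfl
    · have hcell := hcol (x c) (by omega) (by omega)
      obtain ⟨a, a1, a2, a3⟩ := E1 hs.1 hcell
      have hxa : x a < x c := a2
      have hane : a ≠ c := by
        intro h; rw [h] at a2; omega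
      have hane' : (a : ℕ) ≠ c := fun h => hane (Fin.ext h)
      by_cases hac : (c : ℕ) < a
      · refine ih (x a) (by omega) x a i i' b rfl hs hi (by rw [Fin.le_def]; omega)
          (hxa.trans hxc) ?_ hib hxb hNE q q1 q2 q3 y0 hcol
        intro s r s1 s2 r1 r2
        by_cases hr : r ≤ (x c : ℕ)
        · exact a3 s r s1 s2 r1 hr
        · exact hci' s r (by omega) s2 (by omega) r2
      · have hac' : a < c := by rw [Fin.lt_def]; omega
        have hba : Blk v x a c (x a) (x c) := a3.sub le_rfl (by omega) le_rfl le_rfl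
        have hs' := hs.swap hac' hxa hba
        have xc : (x * Equiv.swap a c) c = x a := by simp
        have xi' : (x * Equiv.swap a c) i' = x i' := by
          simp [swap_apply_of_ne_of_ne (ne_of_gt (hac'.trans hcc)) (ne_of_gt hcc)]
        have xb : (x * Equiv.swap a c) b = x b := by
          simp [swap_apply_of_ne_of_ne (ne_of_gt (hac'.trans (hcc.trans hib)))
            (ne_of_gt (hcc.trans hib))]
        have hrk : ∀ s r : ℕ, (c : ℕ) < s → rk (x * Equiv.swap a c) s r = rk x s r := by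
          intro s r hsr
          rw [rk_swap x hac' hxa, if_neg (by omega), add_zero]
        have nib : (i' : ℕ) < b := hib
        have res := ih (x a) (by omega) (x * Equiv.swap a c) c i i' b (by rw [xc]) hs' hi hci
          (by rw [xc, xi']; exact hxa.trans hxc)
          (by
            rw [xc, xi']
            intro s r s1 s2 r1 r2
            rw [hrk s r s1]
            by_cases hr : r ≤ (x c : ℕ)
            · exact a3 s r (by omega) s2 r1 hr
            · exact hci' s r s1 s2 (by omega) r2)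
          hib (by rw [xi', xb]; exact hxb)
          (by
            rw [xi', xb]
            intro s r s1 s2 r1 r2
            rw [hrk s r (by omega)]
            exact hNE s r s1 s2 r1 r2)
          q (by rw [xi']; exact q1) (by rw [xb]; exact q2) (by rw [hrk _ _ (by omega)]; exact q3)
          y0 (by
            intro r r1 r2
            rw [xi'] at r2
            rw [hrk _ _ (by omega)]
            exact hcol r r1 r2)
        rw [xi'] at res
        exact Blk.of_swap hac' hxa res

/-- an ascent together with a range of rows that is positive in its column -/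
def PP (v x : Perm (Fin n)) (i i' : Fin n) (lo hi : ℕ) : Prop :=
  (i' : ℕ) = i + 1 ∧ x i < x i' ∧ lo ≤ (x i : ℕ) ∧ (x i' : ℕ) ≤ hi ∧
    ∀ r : ℕ, lo < r → r ≤ hi → rk x i' r < rk v i' r

lemma PP.hi_lt {v x : Perm (Fin n)} {i i' : Fin n} {lo hi : ℕ} (h : PP v x i i' lo hi) :
    hi < n := by
  obtain ⟨h1, h2, h3, h4, h5⟩ := h
  have h2' : (x i : ℕ) < x i' := h2
  by_contra hcon
  have := h5 hi (by omega) le_rfl
  rw [rk_big_b v _ (by omega)] at this
  omega

lemma first_above {x : Perm (Fin n)} {p b : Fin n} {t : ℕ} (hpb : p < b) (h1 : (x p : ℕ) ≤ t)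
    (h2 : t < (x b : ℕ)) : ∃ j j' : Fin n, (j' : ℕ) = j + 1 ∧ p ≤ j ∧ j' ≤ b ∧ (x j : ℕ) ≤ t ∧
      t < (x j' : ℕ) := by
  classical
  have hS : (univ.filter fun k : Fin n => p < k ∧ k ≤ b ∧ t < (x k : ℕ)).Nonempty :=
    ⟨b, by simp only [mem_filter, mem_univ, true_and]; exact ⟨hpb, le_rfl, h2⟩⟩
  obtain ⟨j', hj', hmin⟩ := Finset.exists_min_image _ (fun k : Fin n => k) hS
  simp only [mem_filter, mem_univ, true_and] at hj' hmin
  have hpj : (p : ℕ) < j' := hj'.1
  have hlt := j'.isLt
  refine ⟨⟨(j' : ℕ) - 1, by omega⟩, j', ?_, ?_, hj'.2.1, ?_, hj'.2.2⟩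
  · simp only; omega
  · rw [Fin.le_def]; simp only; omega
  · by_cases hpe : (p : ℕ) = (j' : ℕ) - 1
    · have : (⟨(j' : ℕ) - 1, by omega⟩ : Fin n) = p := Fin.ext hpe.symm
      rw [this]; exact h1
    · by_contra hcon
      have hjb : (j' : ℕ) ≤ b := hj'.2.1
      have := hmin ⟨(j' : ℕ) - 1, by omega⟩ ⟨by rw [Fin.lt_def]; simp only; omega,
        by rw [Fin.le_def]; simp only; omega, by omega⟩
      rw [Fin.le_def] at this
      simp only at this
      omega

lemma stepR {v x : Perm (Fin n)} (hs : Sm v x)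
    (hall : ∀ j j' : Fin n, (j' : ℕ) = j + 1 → x j < x j' → Blk v x j j' (x j) (x j'))
    {i i' : Fin n} {lo hi : ℕ} (hP : PP v x i i' lo hi) (hO : OutR v x i i') :
    ∃ (j j' : Fin n) (lo' hi' : ℕ), PP v x j j' lo' hi' ∧ hi + lo' < hi' + lo := by
  obtain ⟨p1, p2, p3, p4, p5⟩ := hP
  obtain ⟨b, b1, b2, b3, q, q1, q2, q3⟩ := hO
  have hii' : i < i' := by rw [Fin.lt_def]; omega
  have v1 : (x i : ℕ) < x i' := p2
  have v2 : (x i' : ℕ) < x b := b2
  have hq : hi < q := by
    by_contra hcon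
    exact q3 (p5 q (by omega) (by omega))
  have hlow : Blk v x i' b lo (x i') :=
    LB _ x i i i' b rfl hs p1 le_rfl p2 (hall i i' p1 p2) b1 b2
      (b3.sub le_rfl le_rfl (le_of_lt v1) le_rfl) q q1 q2 q3 lo
      (fun r r1 r2 => p5 r r1 (by omega))
  have hfull : Blk v x i' b lo (x b) := by
    intro s r s1 s2 r1 r2
    by_cases hr : r ≤ (x i' : ℕ)
    · exact hlow s r s1 s2 r1 hr
    · exact b3 s r s1 s2 (by omega) r2
  obtain ⟨j, j', j1, j2, j3, j4, j5⟩ := first_above (x := x) (t := hi) b1 p4 (by omega)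
  have hxj : x j < x j' := by rw [Fin.lt_def]; omega
  have n1 : (i' : ℕ) ≤ j := j2
  have n2 : (j' : ℕ) ≤ b := j3
  refine ⟨j, j', min lo (x j), max (x b) (x j'), ⟨j1, hxj, min_le_right _ _, le_max_right _ _, ?_⟩,
    ?_⟩
  · intro r r1 r2
    by_cases hr : lo < r ∧ r ≤ (x b : ℕ)
    · exact hfull j' r (by omega) n2 hr.1 hr.2
    · refine hall j j' j1 hxj j' r (by omega) le_rfl ?_ ?_
      · rcases min_lt_iff.1 r1 with h | h
        · have : ¬ r ≤ (x b : ℕ) := fun h' => hr ⟨h, h'⟩
          omega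
        · exact h
      · rcases le_max_iff.1 r2 with h | h
        · have : ¬ lo < r := fun h' => hr ⟨h', h⟩
          omega
        · exact h
  · have e1 : min lo (x j : ℕ) ≤ lo := min_le_left _ _
    have e2 : (x b : ℕ) ≤ max (x b : ℕ) (x j' : ℕ) := le_max_left _ _
    omega

lemma PP.mir {v x : Perm (Fin n)} {i i' : Fin n} {lo hi : ℕ} (h : PP v x i i' lo hi) :
    PP (mir v) (mir x) (Fin.rev i') (Fin.rev i) (n - 1 - hi) (n - 1 - lo) := by
  have hn := h.hi_lt
  obtain ⟨h1, h2, h3, h4, h5⟩ := h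
  have h2' : (x i : ℕ) < x i' := h2
  have hi'n := i'.isLt
  refine ⟨rev_succ h1, ?_, ?_, ?_, ?_⟩
  · simp only [mir_apply, Fin.rev_rev, Fin.rev_lt_rev]; exact h2
  · simp only [mir_apply, Fin.rev_rev, Fin.val_rev]; omega
  · simp only [mir_apply, Fin.rev_rev, Fin.val_rev]; omega
  · intro r r1 r2
    rw [cell_mir (by rw [Fin.val_rev]; omega) (by omega)]
    have : n - ((Fin.rev i : Fin n) : ℕ) = i' := by rw [Fin.val_rev]; omega
    rw [this]
    exact h5 _ (by omega) (by omega)

lemma stepL {v x : Perm (Fin n)} (hs : Sm v x)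
    (hall : ∀ j j' : Fin n, (j' : ℕ) = j + 1 → x j < x j' → Blk v x j j' (x j) (x j'))
    {i i' : Fin n} {lo hi : ℕ} (hP : PP v x i i' lo hi) (hO : OutL v x i i') :
    ∃ (j j' : Fin n) (lo' hi' : ℕ), PP v x j j' lo' hi' ∧ hi + lo' < hi' + lo := by
  have hn := hP.hi_lt
  obtain ⟨j, j', lo', hi', h1, h2⟩ := stepR hs.mir (by
    intro j j' hj hx
    have h1 : ((Fin.rev j : Fin n) : ℕ) = (Fin.rev j' : Fin n) + 1 := rev_succ hj
    have h2 : x (Fin.rev j') < x (Fin.rev j) := by
      simp only [mir_apply, Fin.rev_lt_rev] at hx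
      exact hx
    have := (hall _ _ h1 h2).mir
    simp only [Fin.rev_rev] at this
    simp only [mir_apply]
    exact this) hP.mir hO
  have hn' := h1.hi_lt
  have h3 := h1.mir
  rw [mir_mir, mir_mir] at h3
  have h4 := hP.2.1
  have h5 := hP.2.2.1
  have h6 := hP.2.2.2.1
  have h4' : (x i : ℕ) < x i' := h4
  have k4 := h1.2.1
  have k5 := h1.2.2.1
  have k6 := h1.2.2.2.1
  have k4' : (mir x j : ℕ) < mir x j' := k4
  exact ⟨_, _, _, _, h3, by omega⟩

/-- positional form of the theorem -/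
theorem main_pos {v x : Perm (Fin n)} (hs : Sm v x) (hne : x ≠ v) :
    ∃ i i' : Fin n, (i' : ℕ) = i + 1 ∧ x i < x i' ∧
      (¬ le (x * Equiv.swap i i') v ∨ v i' < v i) := by
  by_contra hcon
  push Not at hcon
  have hall : ∀ j j' : Fin n, (j' : ℕ) = j + 1 → x j < x j' → Blk v x j j' (x j) (x j') := by
    intro j j' h1 h2
    have hjj' : j < j' := by rw [Fin.lt_def]; omega
    exact (le_swap_iff hs.1 hjj' h2).1 (hcon j j' h1 h2).1
  have hasc : ∀ j j' : Fin n, (j' : ℕ) = j + 1 → x j < x j' → v j < v j' := by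
    intro j j' h1 h2
    have hjj' : j < j' := by rw [Fin.lt_def]; omega
    exact lt_of_le_of_ne (hcon j j' h1 h2).2 (fun h => (ne_of_lt hjj') (v.injective h))
  have key : ∀ (N : ℕ) (i i' : Fin n) (lo hi : ℕ), n + lo - hi = N → PP v x i i' lo hi → False := by
    intro N
    induction N using Nat.strong_induction_on with
    | _ N ih =>
    intro i i' lo hi hN hP
    have hlt := hP.hi_lt
    have hout := exists_out _ x i i' rfl hs hP.1 hP.2.1 (hall i i' hP.1 hP.2.1)
      (hasc i i' hP.1 hP.2.1)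
    have hstep : ∃ (j j' : Fin n) (lo' hi' : ℕ), PP v x j j' lo' hi' ∧ hi + lo' < hi' + lo := by
      rcases hout with h | h
      · exact stepR hs hall hP h
      · exact stepL hs hall hP h
    obtain ⟨j, j', lo', hi', h1, h2⟩ := hstep
    have hlt' := h1.hi_lt
    exact ih (n + lo' - hi') (by omega) j j' lo' hi' rfl h1
  obtain ⟨y, hxy, -⟩ := exists_cov hs.1 hne
  obtain ⟨⟨p, q, hpq, hx, -⟩, -⟩ := hxy
  have hx' : (x p : ℕ) < x q := hx
  obtain ⟨j, j', j1, j2, j3, j4, j5⟩ := first_above (x := x) (t := x p) hpq le_rfl hx'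
  have hxj : x j < x j' := by rw [Fin.lt_def]; omega
  exact key _ j j' (x j) (x j') rfl ⟨j1, hxj, le_rfl, le_rfl, fun r r1 r2 =>
    hall j j' j1 hxj j' r (by omega) le_rfl r1 r2⟩

end Pool.Agent.W170.Del
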