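import Pool.Agent.W170.Del.Out

set_option autoImplicit false

namespace Pool.Agent.W170.Del

open Equiv Finset
open Pool.Agent.Results.MP_0fb7f5_co.BooleanIntervals

variable {n : ℕ}

/-- conjugation by the reversal -/
def mir (x : Perm (Fin n)) : Perm (Fin n) := Fin.revPerm * x * Fin.revPerm

lemma mir_apply (x : Perm (Fin n)) (k : Fin n) : mir x k = Fin.rev (x (Fin.rev k)) := rfl

lemma mir_mir (x : Perm (Fin n)) : mir (mir x) = x := by
  ext k
  simp [mir_apply]

lemma mir_swap (x : Perm (Fin n)) (i j : Fin n) :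
    mir (x * Equiv.swap i j) = mir x * Equiv.swap (Fin.rev i) (Fin.rev j) := by
  ext k
  simp only [mir_apply, Perm.mul_apply]
  congr 3
  by_cases h1 : k = Fin.rev i
  · subst h1; simp
  · by_cases h2 : k = Fin.rev j
    · subst h2; simp
    · rw [swap_apply_of_ne_of_ne h1 h2, swap_apply_of_ne_of_ne]
      · intro h; apply h1; rw [← h, Fin.rev_rev]
      · intro h; apply h2; rw [← h, Fin.rev_rev]

lemma card_ge (a : ℕ) (ha : a ≤ n) : (univ.filter fun k : Fin n => n - a ≤ (k : ℕ)).card = a := by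
  have h1 : (univ.filter fun k : Fin n => n - a ≤ (k : ℕ)).card +
      (univ.filter fun k : Fin n => ¬ n - a ≤ (k : ℕ)).card = n := by
    rw [Finset.card_filter_add_card_filter_not]
    simp
  have h2 : (univ.filter fun k : Fin n => ¬ n - a ≤ (k : ℕ)).card = n - a := by
    have : (univ.filter fun k : Fin n => ¬ n - a ≤ (k : ℕ)) =
        (univ.filter fun k : Fin n => (k : ℕ) < n - a) := by
      ext k
      simp only [mem_filter, mem_univ, true_and, not_le]
    rw [this, Fin.card_filter_val_lt]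
    omega
  omega

lemma rk_mir (x : Perm (Fin n)) {a b : ℕ} (ha : a ≤ n) (hb : b ≤ n) :
    rk (mir x) a b + b = rk x (n - a) (n - b) + a := by
  have e1 : (∑ k : Fin n, if n - b ≤ (x k : ℕ) then 1 else 0) = b := by
    rw [Equiv.sum_comp x (fun k : Fin n => if n - b ≤ (k : ℕ) then 1 else 0), ← Finset.card_filter]
    exact card_ge b hb
  have e2 : (∑ k : Fin n, if n - a ≤ (k : ℕ) then 1 else 0) = a := by
    rw [← Finset.card_filter]
    exact card_ge a ha
  have e3 : rk (mir x) a b =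
      ∑ k : Fin n, if n - a ≤ (k : ℕ) ∧ (x k : ℕ) < n - b then 1 else 0 := by
    rw [rk_eq_sum, ← Equiv.sum_comp Fin.revPerm]
    apply Finset.sum_congr rfl
    intro k _
    unfold ind
    simp only [mir_apply, Fin.revPerm_apply, Fin.rev_rev, Fin.val_rev]
    have := (x k).isLt
    have := k.isLt
    split_ifs <;> omega
  have e4 : (∑ k : Fin n, if n - a ≤ (k : ℕ) ∧ (x k : ℕ) < n - b then 1 else 0) +
      (∑ k : Fin n, if n - b ≤ (x k : ℕ) then 1 else 0) = rk x (n - a) (n - b) +
      (∑ k : Fin n, if n - a ≤ (k : ℕ) then 1 else 0) := by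
    rw [rk_eq_sum, ← Finset.sum_add_distrib, ← Finset.sum_add_distrib]
    apply Finset.sum_congr rfl
    intro k _
    unfold ind
    split_ifs <;> omega
  rw [e1, e2] at e4
  rw [e3]
  exact e4

lemma cell_mir {v x : Perm (Fin n)} {a b : ℕ} (ha : a ≤ n) (hb : b ≤ n) :
    rk (mir x) a b < rk (mir v) a b ↔ rk x (n - a) (n - b) < rk v (n - a) (n - b) := by
  have h1 := rk_mir x ha hb
  have h2 := rk_mir v ha hb
  constructor <;> intro h <;> omega

lemma le_mir {x v : Perm (Fin n)} (h : le x v) : le (mir x) (mir v) := by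
  have key : ∀ a b : ℕ, a ≤ n → rk (mir x) a b ≤ rk (mir v) a b := by
    intro a b ha
    by_cases hb : b ≤ n
    · have h1 := rk_mir x ha hb
      have h2 := rk_mir v ha hb
      have h3 := h (n - a) (n - b)
      omega
    · rw [rk_big_b _ _ (by omega), rk_big_b _ _ (by omega)]
  have hbig : ∀ (z : Perm (Fin n)) (a b : ℕ), n ≤ a → rk z a b = rk z n b := by
    intro z a b ha
    unfold rk
    congr 1
    ext k
    have := k.isLt
    simp only [mem_filter, mem_univ, true_and]
    constructor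
    · rintro ⟨h1, h2⟩; exact ⟨this, h2⟩
    · rintro ⟨h1, h2⟩; exact ⟨by omega, h2⟩
  intro a b
  by_cases ha : a ≤ n
  · exact key a b ha
  · rw [hbig _ a b (by omega), hbig _ a b (by omega)]
    exact key n b le_rfl

lemma le_mir_iff {x v : Perm (Fin n)} : le (mir x) (mir v) ↔ le x v := by
  constructor
  · intro h
    have := le_mir h
    rwa [mir_mir, mir_mir] at this
  · exact le_mir

lemma inv_mir (x : Perm (Fin n)) : inv (mir x) = inv x := by
  unfold inv
  apply Finset.card_nbij' (fun p => (Fin.rev p.2, Fin.rev p.1)) (fun p => (Fin.rev p.2, Fin.rev p.1))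
  · intro p hp
    simp only [coe_filter, Set.mem_ofPred_eq, mem_univ, true_and, mir_apply, Fin.rev_lt_rev] at hp ⊢
    exact ⟨hp.1, hp.2⟩
  · intro p hp
    simp only [coe_filter, Set.mem_ofPred_eq, mem_univ, true_and, mir_apply, Fin.rev_lt_rev,
      Fin.rev_rev] at hp ⊢
    exact ⟨hp.1, hp.2⟩
  · intro p _
    simp
  · intro p _
    simp

lemma inner_mir (x : Perm (Fin n)) {i j : Fin n} (hij : i < j) (hx : x i < x j) :
    inner (mir x) (Fin.rev j) (Fin.rev i) = inner x i j := by
  have h1 := inv_swap x hij hx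
  have h2 := inv_swap (mir x) (i := Fin.rev j) (j := Fin.rev i) (Fin.rev_lt_rev.2 hij) (by
    simp only [mir_apply, Fin.rev_rev, Fin.rev_lt_rev]; exact hx)
  rw [swap_comm, ← mir_swap, inv_mir, inv_mir] at h2
  omega

lemma gg_mir (v z : Perm (Fin n)) (p q : Fin n) :
    gg (mir v) (mir z) (Fin.rev p) (Fin.rev q) = gg v z p q := by
  unfold gg
  rw [← mir_swap]
  by_cases h : le (z * Equiv.swap p q) v
  · rw [if_pos h, if_pos (le_mir_iff.2 h)]
  · rw [if_neg h, if_neg (fun h' => h (le_mir_iff.1 h'))]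

lemma FF_mir (z v : Perm (Fin n)) : FF (mir z) (mir v) = FF z v := by
  unfold FF
  rw [← Equiv.sum_comp (Equiv.prodCongr Fin.revPerm Fin.revPerm)]
  apply Finset.sum_congr rfl
  rintro ⟨p, q⟩ -
  simp only [prodCongr_apply, Prod.map_apply, Fin.revPerm_apply, Fin.rev_inj, gg_mir]

lemma Sm.mir {v x : Perm (Fin n)} (h : Sm v x) : Sm (mir v) (mir x) :=
  ⟨le_mir h.1, by rw [FF_mir, inv_mir]; exact h.2⟩

lemma Blk.mir {v x : Perm (Fin n)} {i j k l : Fin n} (h : Blk v x i j k l) :
    Blk (mir v) (mir x) (Fin.rev j) (Fin.rev i) (Fin.rev l) (Fin.rev k) := by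
  intro a b a1 a2 b1 b2
  rw [Fin.val_rev] at a1 a2 b1 b2
  have hi := i.isLt
  have hj := j.isLt
  have hk := k.isLt
  have hl := l.isLt
  rw [cell_mir (by omega) (by omega)]
  exact h _ _ (by omega) (by omega) (by omega) (by omega)

/-- an outgoing pair on the left -/
def OutL (v x : Perm (Fin n)) (i i' : Fin n) : Prop :=
  OutR (mir v) (mir x) (Fin.rev i') (Fin.rev i)

lemma rev_succ {i i' : Fin n} (hi : (i' : ℕ) = i + 1) :
    ((Fin.rev i : Fin n) : ℕ) = (Fin.rev i' : Fin n) + 1 := by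
  rw [Fin.val_rev, Fin.val_rev]
  have := i'.isLt
  omega

lemma L2L {v x : Perm (Fin n)} (hs : Sm v x) {i i' : Fin n} (hi : (i' : ℕ) = i + 1)
    (hxi : x i < x i') (hbi : Blk v x i i' (x i) (x i')) {α β : Fin n} (hαβ : α < β)
    (hx : x α < x β) (hin : inner x α β = 0) (hb : Blk v x α β (x α) (x β))
    (hne : ¬ (α = i ∧ β = i'))
    (hbi' : Blk v (x * Equiv.swap α β) i i' ((x * Equiv.swap α β) i) ((x * Equiv.swap α β) i'))
    (hO : OutL v (x * Equiv.swap α β) i i') : OutL v x i i' := by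
  unfold OutL at hO ⊢
  rw [mir_swap, swap_comm] at hO
  refine L2R hs.mir (rev_succ hi) ?_ ?_ (α := Fin.rev β) (β := Fin.rev α)
    (Fin.rev_lt_rev.2 hαβ) ?_ ?_ ?_ ?_ ?_ hO
  · simp only [mir_apply, Fin.rev_rev, Fin.rev_lt_rev]; exact hxi
  · simp only [mir_apply, Fin.rev_rev]; exact hbi.mir
  · simp only [mir_apply, Fin.rev_rev, Fin.rev_lt_rev]; exact hx
  · rw [inner_mir x hαβ hx]; exact hin
  · simp only [mir_apply, Fin.rev_rev]; exact hb.mir
  · rintro ⟨h1, h2⟩
    exact hne ⟨Fin.rev_injective h2, Fin.rev_injective h1⟩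
  · rw [swap_comm, ← mir_swap]
    simp only [mir_apply, Fin.rev_rev]
    exact hbi'.mir

lemma L1L {v x : Perm (Fin n)} (hs : Sm v x) {i i' : Fin n} (hi : (i' : ℕ) = i + 1)
    (hxi : x i < x i') (hbi : Blk v x i i' (x i) (x i')) {α β : Fin n} (hαβ : α < β)
    (hx : x α < x β) (hin : inner x α β = 0) (hb : Blk v x α β (x α) (x β))
    (hne : ¬ (α = i ∧ β = i'))
    (hbi' : ¬ Blk v (x * Equiv.swap α β) i i' ((x * Equiv.swap α β) i)
      ((x * Equiv.swap α β) i')) : OutL v x i i' ∨ α = i' := by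
  have := L1R hs.mir (rev_succ hi) (α := Fin.rev β) (β := Fin.rev α)
    (by simp only [mir_apply, Fin.rev_rev, Fin.rev_lt_rev]; exact hxi)
    (by simp only [mir_apply, Fin.rev_rev]; exact hbi.mir)
    (Fin.rev_lt_rev.2 hαβ)
    (by simp only [mir_apply, Fin.rev_rev, Fin.rev_lt_rev]; exact hx)
    (by rw [inner_mir x hαβ hx]; exact hin)
    (by simp only [mir_apply, Fin.rev_rev]; exact hb.mir)
    (by
      rintro ⟨h1, h2⟩
      exact hne ⟨Fin.rev_injective h2, Fin.rev_injective h1⟩)
    (by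
      intro h
      rw [swap_comm, ← mir_swap] at h
      simp only [mir_apply, Fin.rev_rev] at h
      have h' := h.mir
      rw [mir_mir, mir_mir] at h'
      simp only [Fin.rev_rev] at h'
      exact hbi' h')
  rcases this with h | h
  · left; exact h
  · right; exact Fin.rev_injective h

end Pool.Agent.W170.Del
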