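import Pool.Agent.W170.Del.Gen

set_option autoImplicit false

namespace Pool.Agent.W170.Del

open Equiv Finset
open Pool.Agent.Results.MP_0fb7f5_co.BooleanIntervals

variable {n : ℕ}

/-- an outgoing pair on the right of the adjacent ascent `i`, `i' = i + 1` -/
def OutR (v x : Perm (Fin n)) (i i' : Fin n) : Prop :=
  ∃ b : Fin n, i' < b ∧ x i' < x b ∧ Blk v x i' b (x i) (x b) ∧
    ∃ q : ℕ, (x i' : ℕ) < q ∧ q ≤ (x b : ℕ) ∧ ¬ rk x i' q < rk v i' q

lemma OutR.min {v x : Perm (Fin n)} {i i' : Fin n} (h : OutR v x i i') :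
    ∃ (b : Fin n) (q : ℕ), i' < b ∧ x i' < x b ∧ Blk v x i' b (x i) (x b) ∧
      (x i' : ℕ) < q ∧ q ≤ (x b : ℕ) ∧ ¬ rk x i' q < rk v i' q ∧
      ∀ r : ℕ, (x i' : ℕ) < r → r < q → rk x i' r < rk v i' r := by
  classical
  obtain ⟨b, h1, h2, h3, q, h4, h5, h6⟩ := h
  have hex : ∃ q : ℕ, (x i' : ℕ) < q ∧ ¬ rk x i' q < rk v i' q := ⟨q, h4, h6⟩
  refine ⟨b, Nat.find hex, h1, h2, h3, (Nat.find_spec hex).1,
    (Nat.find_min' hex ⟨h4, h6⟩).trans h5, (Nat.find_spec hex).2, ?_⟩
  intro r hr1 hr2
  have := Nat.find_min hex hr2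
  by_contra hc
  exact this ⟨hr1, hc⟩

/-- `x'` is obtained by a cover not touching the columns `i`, `i'` -/
lemma L2R_disj {v x : Perm (Fin n)} (hs : Sm v x) {i i' : Fin n} (hi : (i' : ℕ) = i + 1)
    (hxi : x i < x i') (hbi : Blk v x i i' (x i) (x i')) {α β : Fin n} (hαβ : α < β)
    (hx : x α < x β) (hin : inner x α β = 0) (hb : Blk v x α β (x α) (x β))
    (n1 : α ≠ i) (n2 : α ≠ i') (n3 : β ≠ i) (n4 : β ≠ i')
    (hbi' : Blk v (x * Equiv.swap α β) i i' ((x * Equiv.swap α β) i) ((x * Equiv.swap α β) i'))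
    (hO : OutR v (x * Equiv.swap α β) i i') : OutR v x i i' := by
  have hii' : i < i' := by rw [Fin.lt_def]; omega
  have xα : (x * Equiv.swap α β) α = x β := by simp
  have xβ : (x * Equiv.swap α β) β = x α := by simp
  have xi : (x * Equiv.swap α β) i = x i := by simp [swap_apply_of_ne_of_ne n1.symm n3.symm]
  have xi' : (x * Equiv.swap α β) i' = x i' := by simp [swap_apply_of_ne_of_ne n2.symm n4.symm]
  have vαβ : (x α : ℕ) < x β := hx
  have vi : (x i : ℕ) < x i' := hxi
  have nαβ : (α : ℕ) < β := hαβ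
  have m1 : (α : ℕ) ≠ i := fun h => n1 (Fin.ext h)
  have m2 : (α : ℕ) ≠ i' := fun h => n2 (Fin.ext h)
  have m3 : (β : ℕ) ≠ i := fun h => n3 (Fin.ext h)
  have m4 : (β : ℕ) ≠ i' := fun h => n4 (Fin.ext h)
  obtain ⟨b, q, h1, h2, h3, h4, h5, h6, h7⟩ := hO.min
  rw [xi] at h3 hbi'
  rw [xi'] at h2 h4 h7 hbi'
  have h1' : (i' : ℕ) < b := h1
  -- all rows between `x i` and `q` are positive in column `i'`
  have hcol : ∀ r : ℕ, (x i : ℕ) < r → r < q →
      rk (x * Equiv.swap α β) i' r < rk v i' r := by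
    intro r r1 r2
    by_cases hr : r ≤ (x i' : ℕ)
    · exact hbi' i' r (by omega) le_rfl r1 hr
    · exact h7 r (by omega) r2
  have hup : ∀ a r : ℕ, rk x a r ≤ rk (x * Equiv.swap α β) a r := rk_le_swap x hαβ hx
  by_cases hrect : (α : ℕ) < (i' : ℕ) ∧ (i' : ℕ) ≤ (β : ℕ) ∧ (x α : ℕ) < q ∧ q ≤ (x β : ℕ)
  · -- the zero cell lies in the rectangle of the cover
    have hbα : b ≠ α := by
      intro h; rw [h] at h1'; omega
    have hbβ : b ≠ β := by
      intro h; rw [h, xβ] at h5; omega
    have xb : (x * Equiv.swap α β) b = x b := by simp [swap_apply_of_ne_of_ne hbα hbβ]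
    rw [xb] at h2 h3 h5
    by_cases hz : ∃ r : ℕ, (x i' : ℕ) < r ∧ r ≤ (x b : ℕ) ∧ ¬ rk x i' r < rk v i' r
    · exact ⟨b, h1, h2, Blk.of_swap hαβ hx h3, hz⟩
    · exfalso
      push Not at hz
      have v2 : (x i' : ℕ) < x b := h2
      have hib : Blk v x i b (x i) (x b) := by
        intro a r a1 a2 b1 b2
        by_cases ha : a ≤ (i' : ℕ)
        · have : a = (i' : ℕ) := by omega
          subst this
          by_cases hr : r ≤ (x i' : ℕ)
          · exact hbi _ r (by omega) le_rfl b1 hr
          · exact hz r (by omega) b2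
        · exact Blk.of_swap hαβ hx h3 a r (by omega) a2 b1 b2
      have e := S3' hs hαβ hx hin hb (hii'.trans h1) (hxi.trans h2) hib n1.symm n3.symm hbα hbβ
        (a := i') (b := q) hrect.1 hrect.2.1 hrect.2.2.1 hrect.2.2.2 (by omega) (by omega)
        (by omega) h5
      have e2 := rk_swap x hαβ hx i' q
      rw [if_pos hrect] at e2
      omega
  · have e2 := rk_swap x hαβ hx i' q
    rw [if_neg hrect, add_zero] at e2
    rw [e2] at h6
    by_cases hbα : b = α
    · subst hbα
      rw [xα] at h2 h3 h5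
      by_cases hq : q ≤ (x b : ℕ)
      · exact ⟨b, h1, by rw [Fin.lt_def]; omega,
          (Blk.of_swap hαβ hx h3).sub le_rfl le_rfl le_rfl (by omega), q, h4, hq, h6⟩
      · refine ⟨β, h1.trans hαβ, h2, ?_, q, h4, h5, h6⟩
        have hlow : Blk v x b β (x i) (x b) := by
          by_cases hib : (x i : ℕ) < x b
          · have hblk : Blk v x i b (x i) (x b) := by
              intro a r a1 a2 b1 b2
              by_cases ha : a ≤ (i' : ℕ)
              · have : a = (i' : ℕ) := by omega
                subst this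
                exact lt_of_le_of_lt (hup _ _) (hcol r b1 (by omega))
              · exact Blk.of_swap hαβ hx h3 a r (by omega) a2 b1 (by omega)
            rcases S2' hs hαβ hx hin hb (hii'.trans h1) hib hblk with h | h
            · exact absurd (h i' q (by omega) (by omega) (by omega) h5) h6
            · exact h
          · intro a r a1 a2 b1 b2
            omega
        intro a r a1 a2 b1 b2
        by_cases ha : a ≤ (b : ℕ)
        · exact Blk.of_swap hαβ hx h3 a r a1 ha b1 b2
        · by_cases hr : r ≤ (x b : ℕ)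
          · exact hlow a r (by omega) a2 b1 hr
          · exact hb a r (by omega) a2 (by omega) b2
    · by_cases hbβ : b = β
      · subst hbβ
        rw [xβ] at h2 h3 h5
        by_cases hαi : (i' : ℕ) < α
        · exact ⟨α, hαi, h2, (Blk.of_swap hαβ hx h3).sub le_rfl (by omega) le_rfl le_rfl,
            q, h4, h5, h6⟩
        · refine ⟨b, h1, h2.trans hx, ?_, q, h4, by omega, h6⟩
          intro a r a1 a2 b1 b2
          by_cases hr : r ≤ (x α : ℕ)
          · exact Blk.of_swap hαβ hx h3 a r a1 a2 b1 hr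
          · exact hb a r (by omega) a2 (by omega) b2
      · have xb : (x * Equiv.swap α β) b = x b := by simp [swap_apply_of_ne_of_ne hbα hbβ]
        rw [xb] at h2 h3 h5
        exact ⟨b, h1, h2, Blk.of_swap hαβ hx h3, q, h4, h5, h6⟩

/-- cover with left position `i'` -/
lemma L2R_two {v x : Perm (Fin n)} {i i' : Fin n} (hi : (i' : ℕ) = i + 1) {β : Fin n}
    (hαβ : i' < β) (hx : x i' < x β)
    (hO : OutR v (x * Equiv.swap i' β) i i') : OutR v x i i' := by
  have hii' : i < i' := by rw [Fin.lt_def]; omega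
  have xα : (x * Equiv.swap i' β) i' = x β := by simp
  have xβ : (x * Equiv.swap i' β) β = x i' := by simp
  have xi : (x * Equiv.swap i' β) i = x i := by
    simp [swap_apply_of_ne_of_ne (ne_of_lt hii') (ne_of_lt (hii'.trans hαβ))]
  obtain ⟨b, h1, h2, h3, q, h4, h5, h6⟩ := hO
  rw [xi] at h3
  rw [xα] at h2 h4
  have vx : (x i' : ℕ) < x β := hx
  have hbβ : b ≠ β := by
    intro h; rw [h, xβ] at h2; exact absurd h2 (not_lt.2 (le_of_lt hx))
  have xb : (x * Equiv.swap i' β) b = x b := by simp [swap_apply_of_ne_of_ne (ne_of_gt h1) hbβ]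
  rw [xb] at h2 h3 h5
  have e2 := rk_swap x hαβ hx i' q
  rw [if_neg (by omega), add_zero] at e2
  rw [e2] at h6
  exact ⟨b, h1, hx.trans h2, Blk.of_swap hαβ hx h3, q, by omega, h5, h6⟩

/-- cover with right position `i` -/
lemma L2R_two' {v x : Perm (Fin n)} {i i' : Fin n} (hi : (i' : ℕ) = i + 1) {α : Fin n}
    (hαβ : α < i) (hx : x α < x i)
    (hO : OutR v (x * Equiv.swap α i) i i') : OutR v x i i' := by
  have hii' : i < i' := by rw [Fin.lt_def]; omega
  have nii' : (i : ℕ) < i' := hii'
  have xi : (x * Equiv.swap α i) i = x α := by simp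
  have xi' : (x * Equiv.swap α i) i' = x i' := by
    simp [swap_apply_of_ne_of_ne (ne_of_gt (hαβ.trans hii')) (ne_of_gt hii')]
  obtain ⟨b, h1, h2, h3, q, h4, h5, h6⟩ := hO
  rw [xi] at h3
  rw [xi'] at h2 h4
  have vx : (x α : ℕ) < x i := hx
  have xb : (x * Equiv.swap α i) b = x b := by
    simp [swap_apply_of_ne_of_ne (ne_of_gt (hαβ.trans (hii'.trans h1)))
      (ne_of_gt (hii'.trans h1))]
  rw [xb] at h2 h3 h5
  have e2 := rk_swap x hαβ hx i' q
  rw [if_neg (by omega), add_zero] at e2
  rw [e2] at h6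
  exact ⟨b, h1, h2, (Blk.of_swap hαβ hx h3).sub le_rfl le_rfl (le_of_lt vx) le_rfl,
    q, h4, h5, h6⟩

/-- cover with left position `i` -/
lemma L2R_three {v x : Perm (Fin n)} (hs : Sm v x) {i i' : Fin n} (hi : (i' : ℕ) = i + 1)
    (hxi : x i < x i') {β : Fin n} (hαβ : i < β)
    (hx : x i < x β) (hin : inner x i β = 0) (hb : Blk v x i β (x i) (x β))
    (n4 : β ≠ i') (hO : OutR v (x * Equiv.swap i β) i i') : OutR v x i i' := by
  have hii' : i < i' := by rw [Fin.lt_def]; omega
  have nii' : (i : ℕ) < i' := hii'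
  have nαβ : (i : ℕ) < β := hαβ
  have m4 : (β : ℕ) ≠ i' := fun h => n4 (Fin.ext h)
  have hi'β : i' < β := by rw [Fin.lt_def]; omega
  have vi : (x i : ℕ) < x i' := hxi
  have vx : (x i : ℕ) < x β := hx
  have vβ : (x β : ℕ) < x i' := by
    have hne : (x β : ℕ) ≠ x i' := fun h => n4 (x.injective (Fin.ext h))
    by_contra hc
    unfold Pool.Agent.Results.MP_0fb7f5_co.BooleanIntervals.inner at hin
    rw [Finset.card_eq_zero, Finset.filter_eq_empty_iff] at hin
    exact hin (mem_univ i') ⟨hii', hi'β, hxi, by rw [Fin.lt_def]; omega⟩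
  have xi : (x * Equiv.swap i β) i = x β := by simp
  have xβ : (x * Equiv.swap i β) β = x i := by simp
  have xi' : (x * Equiv.swap i β) i' = x i' := by
    simp [swap_apply_of_ne_of_ne (ne_of_gt hii') (Ne.symm n4)]
  obtain ⟨b, h1, h2, h3, q, h4, h5, h6⟩ := hO
  rw [xi] at h3
  rw [xi'] at h2 h4
  have hbβ : b ≠ β := by
    intro h; rw [h, xβ] at h5; omega
  have xb : (x * Equiv.swap i β) b = x b := by
    simp [swap_apply_of_ne_of_ne (ne_of_gt (hii'.trans h1)) hbβ]
  rw [xb] at h2 h3 h5
  have e2 := rk_swap x hαβ hx i' q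
  rw [if_neg (by omega), add_zero] at e2
  rw [e2] at h6
  have h1' : (i' : ℕ) < b := h1
  refine ⟨b, h1, h2, ?_, q, h4, h5, h6⟩
  have hbβ' : (b : ℕ) ≠ β := fun h => hbβ (Fin.ext h)
  have hlow : Blk v x i' b (x i) (x β) := by
    by_cases hbb : (b : ℕ) < β
    · exact hb.sub (by omega) (le_of_lt hbb) le_rfl le_rfl
    · have hβb : β < b := by rw [Fin.lt_def]; omega
      have hxβb : x β < x b := by rw [Fin.lt_def]; omega
      rcases S2 hs hαβ hx hin hb hβb hxβb
        ((Blk.of_swap hαβ hx h3).sub (by omega) le_rfl le_rfl le_rfl) with h | h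
      · exact absurd (h i' q (by omega) (by omega) (by omega) h5) h6
      · intro a r a1 a2 b1 b2
        by_cases ha : a ≤ (β : ℕ)
        · exact hb a r (by omega) ha b1 b2
        · exact h a r (by omega) a2 b1 b2
  intro a r a1 a2 b1 b2
  by_cases hr : r ≤ (x β : ℕ)
  · exact hlow a r a1 a2 b1 hr
  · exact Blk.of_swap hαβ hx h3 a r a1 a2 (by omega) b2

/-- cover with right position `i'` -/
lemma L2R_three' {v x : Perm (Fin n)} (hs : Sm v x) {i i' : Fin n} (hi : (i' : ℕ) = i + 1)
    (hxi : x i < x i') (hbi : Blk v x i i' (x i) (x i')) {α : Fin n} (hαβ : α < i')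
    (hx : x α < x i') (hin : inner x α i' = 0) (hb : Blk v x α i' (x α) (x i'))
    (n1 : α ≠ i) (hO : OutR v (x * Equiv.swap α i') i i') : OutR v x i i' := by
  have hii' : i < i' := by rw [Fin.lt_def]; omega
  have nii' : (i : ℕ) < i' := hii'
  have nαβ : (α : ℕ) < i' := hαβ
  have m1 : (α : ℕ) ≠ i := fun h => n1 (Fin.ext h)
  have hαi : α < i := by rw [Fin.lt_def]; omega
  have vi : (x i : ℕ) < x i' := hxi
  have vx : (x α : ℕ) < x i' := hx
  have vα : (x i : ℕ) < x α := by
    have hne : (x α : ℕ) ≠ x i := fun h => n1 (x.injective (Fin.ext h))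
    by_contra hc
    unfold Pool.Agent.Results.MP_0fb7f5_co.BooleanIntervals.inner at hin
    rw [Finset.card_eq_zero, Finset.filter_eq_empty_iff] at hin
    exact hin (mem_univ i) ⟨hαi, hii', by rw [Fin.lt_def]; omega, hxi⟩
  have xi : (x * Equiv.swap α i') i = x i := by
    simp [swap_apply_of_ne_of_ne (Ne.symm n1) (ne_of_lt hii')]
  have xi' : (x * Equiv.swap α i') i' = x α := by simp
  obtain ⟨b, h1, h2, h3, q, h4, h5, h6⟩ := hO
  rw [xi] at h3
  rw [xi'] at h2 h4
  have h1' : (i' : ℕ) < b := h1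
  have hbα : b ≠ α := ne_of_gt (hαβ.trans h1)
  have xb : (x * Equiv.swap α i') b = x b := by
    simp [swap_apply_of_ne_of_ne hbα (ne_of_gt h1)]
  rw [xb] at h2 h3 h5
  have hxb : (x b : ℕ) ≠ x i' := fun h => (ne_of_gt h1) (x.injective (Fin.ext h))
  by_cases hz : ∃ r : ℕ, (x i' : ℕ) < r ∧ r ≤ (x b : ℕ) ∧ ¬ rk x i' r < rk v i' r
  · obtain ⟨r, r1, r2, r3⟩ := hz
    exact ⟨b, h1, by rw [Fin.lt_def]; omega, Blk.of_swap hαβ hx h3, r, r1, r2, r3⟩
  · exfalso
    push Not at hz
    have hib : Blk v x i b (x i) (x b) := by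
      intro a r a1 a2 b1 b2
      by_cases ha : a ≤ (i' : ℕ)
      · have : a = (i' : ℕ) := by omega
        subst this
        by_cases hr : r ≤ (x i' : ℕ)
        · exact hbi _ r (by omega) le_rfl b1 hr
        · exact hz r (by omega) b2
      · exact Blk.of_swap hαβ hx h3 a r (by omega) a2 b1 b2
    have v2 : (x α : ℕ) < x b := h2
    have e2 := rk_swap x hαβ hx i' q
    by_cases hq : q ≤ (x i' : ℕ)
    · rw [if_pos ⟨nαβ, le_rfl, h4, hq⟩] at e2
      have e := S3' hs hαβ hx hin hb (hii'.trans h1) (by rw [Fin.lt_def]; omega) hib (Ne.symm n1)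
        (ne_of_lt hii') hbα (ne_of_gt h1)
        (a := i') (b := q) nαβ le_rfl h4 hq (by omega) (by omega) (by omega) h5
      omega
    · rw [if_neg (by omega), add_zero] at e2
      rw [e2] at h6
      exact h6 (hz q (by omega) h5)

/-- an ascent in columns `i`, `i'` survives every other cover -/
lemma asc_swap {x : Perm (Fin n)} {i i' : Fin n} (hi : (i' : ℕ) = i + 1)
    (hxi : x i < x i') {α β : Fin n} (hαβ : α < β) (hx : x α < x β) (hin : inner x α β = 0)
    (hne : ¬ (α = i ∧ β = i')) : (x * Equiv.swap α β) i < (x * Equiv.swap α β) i' := by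
  have hii' : i < i' := by rw [Fin.lt_def]; omega
  unfold Pool.Agent.Results.MP_0fb7f5_co.BooleanIntervals.inner at hin
  rw [Finset.card_eq_zero, Finset.filter_eq_empty_iff] at hin
  by_cases a1 : α = i
  · subst a1
    have hβ : β ≠ i' := fun h => hne ⟨rfl, h⟩
    have hβ' : (β : ℕ) ≠ i' := fun h => hβ (Fin.ext h)
    have hi'β : i' < β := by rw [Fin.lt_def] at hαβ ⊢; omega
    have := hin (mem_univ i')
    simp only [Perm.mul_apply, swap_apply_left, swap_apply_of_ne_of_ne (ne_of_gt hii') hβ.symm]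
    rcases lt_trichotomy (x β) (x i') with h | h | h
    · exact h
    · exact absurd (x.injective h) hβ
    · exact absurd ⟨hii', hi'β, hxi, h⟩ this
  · by_cases a2 : α = i'
    · subst a2
      simp only [Perm.mul_apply, swap_apply_left,
        swap_apply_of_ne_of_ne (ne_of_lt hii') (ne_of_lt (hii'.trans hαβ))]
      exact hxi.trans hx
    · by_cases a3 : β = i
      · subst a3
        simp only [Perm.mul_apply, swap_apply_right,
          swap_apply_of_ne_of_ne (ne_of_gt (hαβ.trans hii')) (ne_of_gt hii')]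
        exact hx.trans hxi
      · by_cases a4 : β = i'
        · subst a4
          have hα' : (α : ℕ) ≠ i := fun h => a1 (Fin.ext h)
          have hαi : α < i := by rw [Fin.lt_def] at hαβ ⊢; omega
          have := hin (mem_univ i)
          simp only [Perm.mul_apply, swap_apply_right,
            swap_apply_of_ne_of_ne (Ne.symm a1) (ne_of_lt hii')]
          rcases lt_trichotomy (x i) (x α) with h | h | h
          · exact h
          · exact absurd (x.injective h).symm a1
          · exact absurd ⟨hαi, hii', h, hxi⟩ this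
        · simp only [Perm.mul_apply, swap_apply_of_ne_of_ne (Ne.symm a1) (Ne.symm a3),
            swap_apply_of_ne_of_ne (Ne.symm a2) (Ne.symm a4)]
          exact hxi

/-- outgoing pairs on the right go down along covers -/
lemma L2R {v x : Perm (Fin n)} (hs : Sm v x) {i i' : Fin n} (hi : (i' : ℕ) = i + 1)
    (hxi : x i < x i') (hbi : Blk v x i i' (x i) (x i')) {α β : Fin n} (hαβ : α < β)
    (hx : x α < x β) (hin : inner x α β = 0) (hb : Blk v x α β (x α) (x β))
    (hne : ¬ (α = i ∧ β = i'))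
    (hbi' : Blk v (x * Equiv.swap α β) i i' ((x * Equiv.swap α β) i) ((x * Equiv.swap α β) i'))
    (hO : OutR v (x * Equiv.swap α β) i i') : OutR v x i i' := by
  by_cases a1 : α = i
  · subst a1
    exact L2R_three hs hi hxi hαβ hx hin hb (fun h => hne ⟨rfl, h⟩) hO
  · by_cases a2 : α = i'
    · subst a2
      exact L2R_two hi hαβ hx hO
    · by_cases a3 : β = i
      · subst a3
        exact L2R_two' hi hαβ hx hO
      · by_cases a4 : β = i'
        · subst a4
          exact L2R_three' hs hi hxi hbi hαβ hx hin hb a1 hO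
        · exact L2R_disj hs hi hxi hbi hαβ hx hin hb a1 a2 a3 a4 hbi' hO

/-- if a cover destroys the column `i'` block then there is an outgoing pair, or the cover has
right position `i` -/
lemma L1R {v x : Perm (Fin n)} (hs : Sm v x) {i i' : Fin n} (hi : (i' : ℕ) = i + 1)
    (hxi : x i < x i') (hbi : Blk v x i i' (x i) (x i')) {α β : Fin n} (hαβ : α < β)
    (hx : x α < x β) (hin : inner x α β = 0) (hb : Blk v x α β (x α) (x β))
    (hne : ¬ (α = i ∧ β = i'))
    (hbi' : ¬ Blk v (x * Equiv.swap α β) i i' ((x * Equiv.swap α β) i)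
      ((x * Equiv.swap α β) i')) : OutR v x i i' ∨ β = i := by
  have hii' : i < i' := by rw [Fin.lt_def]; omega
  have nii' : (i : ℕ) < i' := hii'
  have vi : (x i : ℕ) < x i' := hxi
  have vx : (x α : ℕ) < x β := hx
  have nαβ : (α : ℕ) < β := hαβ
  by_cases a1 : α = i
  · exfalso
    have hβ : β ≠ i' := fun h => hne ⟨a1, h⟩
    have hasc := asc_swap hi hxi hαβ hx hin hne
    subst a1
    apply hbi'
    have xi : (x * Equiv.swap α β) α = x β := by simp
    have xi' : (x * Equiv.swap α β) i' = x i' := by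
      simp [swap_apply_of_ne_of_ne (ne_of_gt hii') (Ne.symm hβ)]
    rw [xi, xi']
    intro a r a1 a2 b1 b2
    rw [rk_swap x hαβ hx, if_neg (by omega), add_zero]
    exact hbi a r a1 a2 (by omega) b2
  · by_cases a2 : α = i'
    · left
      subst a2
      have xi : (x * Equiv.swap α β) i = x i := by
        simp [swap_apply_of_ne_of_ne (ne_of_lt hii') (ne_of_lt (hii'.trans hαβ))]
      have xi' : (x * Equiv.swap α β) α = x β := by simp
      rw [xi, xi'] at hbi'
      have hz : ∃ r : ℕ, (x α : ℕ) < r ∧ r ≤ (x β : ℕ) ∧ ¬ rk x α r < rk v α r := by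
        by_contra hcon
        push Not at hcon
        apply hbi'
        intro a r a1 a2 b1 b2
        rw [rk_swap x hαβ hx, if_neg (by omega), add_zero]
        by_cases hr : r ≤ (x α : ℕ)
        · exact hbi a r a1 a2 b1 hr
        · have : a = (α : ℕ) := by omega
          subst this
          exact hcon r (by omega) b2
      have hin0 : inner x i α = 0 := by
        unfold Pool.Agent.Results.MP_0fb7f5_co.BooleanIntervals.inner
        rw [Finset.card_eq_zero, Finset.filter_eq_empty_iff]
        rintro k - ⟨k1, k2, -, -⟩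
        rw [Fin.lt_def] at k1 k2
        omega
      obtain ⟨r, r1, r2, r3⟩ := hz
      rcases S2 hs hii' hxi hin0 hbi hαβ hx hb with h | h
      · exact absurd (h α r nii' le_rfl r1 r2) r3
      · refine ⟨β, hαβ, hx, ?_, r, r1, r2, r3⟩
        intro a s a1 a2 b1 b2
        by_cases hsx : s ≤ (x α : ℕ)
        · exact h a s a1 a2 b1 hsx
        · exact hb a s a1 a2 (by omega) b2
    · by_cases a3 : β = i
      · right; exact a3
      · exfalso
        by_cases a4 : β = i'
        · subst a4
          have hα' : (α : ℕ) ≠ i := fun h => a1 (Fin.ext h)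
          have hasc := asc_swap hi hxi hαβ hx hin hne
          apply hbi'
          have xi : (x * Equiv.swap α β) i = x i := by
            simp [swap_apply_of_ne_of_ne (Ne.symm a1) (ne_of_lt hii')]
          have xi' : (x * Equiv.swap α β) β = x α := by simp
          rw [xi, xi']
          intro a r a1 a2 b1 b2
          rw [rk_swap x hαβ hx, if_neg (by omega), add_zero]
          exact hbi a r a1 a2 b1 (by omega)
        · apply hbi'
          have hS := S3 hs hαβ hx hin hb hii' hxi hbi (Ne.symm a1) (Ne.symm a3) (Ne.symm a2)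
            (Ne.symm a4)
          have xi : (x * Equiv.swap α β) i = x i := by
            simp [swap_apply_of_ne_of_ne (Ne.symm a1) (Ne.symm a3)]
          have xi' : (x * Equiv.swap α β) i' = x i' := by
            simp [swap_apply_of_ne_of_ne (Ne.symm a2) (Ne.symm a4)]
          exact (le_swap_iff ((le_swap_iff hs.1 hαβ hx).2 hb) hii' (by rw [xi, xi']; exact hxi)).1 hS

end Pool.Agent.W170.Del
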